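import Mathlib
import Pool.Agent.HDN.Defs
import Pool.Agent.NB5.Final

/-!
# MP_73d3cc_mp: almost every solution of the five body problem in dimension `d ≥ 3` is complete

The definitions (`Pool/Agent/HDN/Defs.lean`): `Ph N d = (Fin N → ℝ^d) × (Fin N → ℝ^d)` (positions and
velocities), `Free q`: the positions are pairwise different, `nfield m`: the vector field of Newton's
equations, `SolOn f Ω γ S`: `γ` solves `γ' = f γ` in `Ω` at all times of `S`,
`incomplete m`: the collision-free initial conditions without a solution defined on all of `ℝ`.
-/

open MeasureTheory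

namespace Pool.Agent.Results.MP_73d3cc_mp.FiveBodies

/-- For all `d ≥ 3` and all masses, the set of initial conditions of the Newtonian five body problem
in `ℝ^d` whose solutions are incomplete has Lebesgue measure zero. -/
theorem result (d : ℕ) (hd : 3 ≤ d) (m : Fin 5 → ℝ) (hm : ∀ a, 0 < m a) :
    volume (HDN.incomplete m : Set (HDN.Ph 5 d)) = 0 :=
  NB5.five_bodies hd hm

end Pool.Agent.Results.MP_73d3cc_mp.FiveBodies
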