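import Mathlib
import Pool.Agent.HDN.Defs
import Pool.Agent.HDN.Phys
import Pool.Agent.HDN.Limit
import Pool.Agent.HDN.Mat

/-!
# MP_73d3cc_mp: no non-collision singularities if the angular momentum has rank `≥ 2 N - 4`

The definitions (`Pool/Agent/HDN/Defs.lean`, `Pool/Agent/HDN/Phys.lean`): `Ph N d` is phase space,
`Free q`: the positions are pairwise different, `nfield m`: the vector field of Newton's equations,
`SolOn f Ω γ S`: `γ` solves `γ' = f γ` in `Ω` at all times of `S`;
`Pool/Agent/HDN/Mat.lean`: `Lmat m x`: the angular momentum with respect to the centre of mass, as a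
skew matrix;
`Pool/Agent/HDN/Limit.lean`: `SolFrom m x γ S`: `γ` is a solution on `S` with `γ 0 = x`,
`BinaryLimit γ T`: all positions converge as `t → T` and exactly two of the limits coincide.
-/

open MeasureTheory Set Filter Topology

namespace Pool.Agent.Results.MP_73d3cc_mp.MaxRankSingularities

/-- For all `N`, `d` and all masses: if the angular momentum of a collision-free state `x` has rank
at least `2 N - 4`, then either the solution through `x` exists for all positive times, or it ends
at a finite time `T` in a collision of exactly two bodies `a` and `b`: all positions converge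
and in the limit only the bodies `a` and `b` are at the same place. -/
theorem result (N d : ℕ) (m : Fin N → ℝ) (hm : ∀ a, 0 < m a) (x : HDN.Ph N d)
    (hx : HDN.Free x.1) (hr : 2 * N - 4 ≤ (HDN.Lmat m x).rank) :
    (∃ γ, HDN.SolFrom m x γ (Ici 0)) ∨
    ∃ T > 0, ∃ γ, HDN.SolFrom m x γ (Ico 0 T) ∧ HDN.BinaryLimit γ T :=
  HDN.dichotomy' hm hx hr

end Pool.Agent.Results.MP_73d3cc_mp.MaxRankSingularities
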