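import Mathlib
import Pool.Agent.HDN.Defs
import Pool.Agent.NBO.Final

/-!
# MP_73d3cc_mp: at least six bodies take part in almost every singularity of the N-body problem

The definitions: `Pool/Agent/HDN/Defs.lean` (`Ph N d` = positions and velocities, `Free`, `FreeSet`, `nfield m` = the vector field of
Newton's equations, `SolOn`) and `Pool/Agent/NBO/Final.lean`: `TakesPart γ l b`: for every `η > 0` there are times arbitrarily
far along `l` with `‖q_b - q_c‖ < η` for some `c ≠ b`; `Few5 m x`: the solution through `x` ends at a finite time `T > 0` and at
most five bodies take part in close encounters as `t → T`; `Few5b m x`: the same at a time `-T < 0`.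
-/

open MeasureTheory

namespace Pool.Agent.Results.MP_73d3cc_mp.SixBodies

/-- `N ≥ 6` bodies in `ℝ^d`, `d = 3, 4, 5`, all masses: the set of initial conditions whose solution ends at a
finite time (in the future or in the past) with at most five bodies taking part in close encounters has
Lebesgue measure zero. -/
theorem result (N d : ℕ) (hN : 6 ≤ N) (hd : 3 ≤ d) (hd5 : d ≤ 5) (m : Fin N → ℝ)
    (hm : ∀ a, 0 < m a) :
    volume {x : HDN.Ph N d | NBO.Few5 m x ∨ NBO.Few5b m x} = 0 :=
  measure_union_null (NBO.few_null (by omega) hd hd5 hm) (NBO.fewb_null (by omega) hd hd5 hm)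

end Pool.Agent.Results.MP_73d3cc_mp.SixBodies
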